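import Pool.Agent.H25.TotDist

set_option autoImplicit false

namespace Pool.Agent.Results.MP_95a65f_co.Exact

open Finset Pool.Agent.H25.TotDist

/-- The total domination number: least size of a set S such that every vertex has a neighbour
in S. -/
noncomputable def gammaT {V : Type} (G : SimpleGraph V) : ℕ :=
  sInf {k : ℕ | ∃ S : Finset V, (∀ v, ∃ t ∈ S, G.Adj v t) ∧ S.card = k}

/-- The sum of the distances d(x i, x j) over pairs i < j. -/
noncomputable def distSum {V : Type} (G : SimpleGraph V) {r : ℕ} (x : Fin r → V) : ℕ :=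
  ∑ i, ∑ j ∈ univ.filter (fun j => i < j), G.dist (x i) (x j)

lemma two_distSum {V : Type} (G : SimpleGraph V) {r : ℕ} (x : Fin r → V) :
    ∑ i, ∑ j, G.dist (x i) (x j) = 2 * distSum G x :=
  double_sum _ (fun _ _ => SimpleGraph.dist_comm) (fun _ => SimpleGraph.dist_self)

lemma cast_den {r : ℕ} (hr : 3 ≤ r) : ((5 * r ^ 2 - 4 * r - r % 2 : ℕ) : ℝ) =
    5 * (r : ℝ) ^ 2 - 4 * r - ((r % 2 : ℕ) : ℝ) ∧ 0 < 5 * r ^ 2 - 4 * r - r % 2 := by
  have h1 : 4 * r + 2 ≤ 5 * r ^ 2 := by nlinarith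
  have h2 : r % 2 < 2 := Nat.mod_lt _ (by norm_num)
  refine ⟨?_, by omega⟩
  rw [Nat.cast_sub (by omega), Nat.cast_sub (by omega)]
  push_cast; ring

/-- For every r at least 3, the best constant c_r equals 8 / (5 r^2 - 4 r - (r mod 2)). -/
theorem result (r : ℕ) (hr : 3 ≤ r) :
    IsGreatest {c : ℝ | ∀ (V : Type) [Fintype V] [Nontrivial V] (G : SimpleGraph V),
        G.Connected → ∀ x : Fin r → V, c * (distSum G x : ℝ) ≤ (gammaT G : ℝ)}
      (8 / (5 * (r : ℝ) ^ 2 - 4 * r - ((r % 2 : ℕ) : ℝ))) := by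
  obtain ⟨hc, hpos⟩ := cast_den hr
  have hpos' : (0 : ℝ) < 5 * (r : ℝ) ^ 2 - 4 * r - ((r % 2 : ℕ) : ℝ) := by
    rw [← hc]; exact_mod_cast hpos
  constructor
  · intro V _ _ G hG x
    have hne : {k : ℕ | ∃ S : Finset V, (∀ v, ∃ t ∈ S, G.Adj v t) ∧ S.card = k}.Nonempty := by
      refine ⟨_, univ, fun v => ?_, rfl⟩
      obtain ⟨w, hw⟩ := exists_ne v
      obtain ⟨a, ha, y, -, h⟩ := cross hG {v} (a := v) (b := w) rfl hw
      exact ⟨y, mem_univ _, (show a = v from ha) ▸ h⟩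
    obtain ⟨S, hS, hcard⟩ := Nat.sInf_mem hne
    have h := main hG S hS hr x
    rw [two_distSum, hcard] at h
    rw [div_mul_eq_mul_div, div_le_iff₀ hpos', ← hc]
    have : 8 * distSum G x ≤ gammaT G * (5 * r ^ 2 - 4 * r - r % 2) := by
      unfold gammaT; omega
    exact_mod_cast this
  · intro c hcm
    have : Nontrivial (Fin r ⊕ Bool) := ⟨⟨Sum.inr true, Sum.inr false, by simp⟩⟩
    have h := hcm (Fin r ⊕ Bool) (dstar r) dstar_conn Sum.inl
    have h1 : gammaT (dstar r) ≤ 2 := by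
      refine Nat.sInf_le ⟨{Sum.inr true, Sum.inr false}, fun v => ?_, card_pair (by simp)⟩
      obtain ⟨b, hb⟩ := dstar_td v
      exact ⟨_, by cases b <;> simp, hb⟩
    have h2 := dstar_sum hr
    rw [two_distSum] at h2
    have h1' : (gammaT (dstar r) : ℝ) ≤ 2 := by exact_mod_cast h1
    have h2' : ((5 * r ^ 2 - 4 * r - r % 2 : ℕ) : ℝ) ≤
        2 * (2 * (distSum (dstar r) Sum.inl : ℝ)) := by exact_mod_cast h2
    rw [hc] at h2'
    rw [le_div_iff₀ hpos']
    rcases le_total c 0 with hc0 | hc0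
    · nlinarith
    · nlinarith

end Pool.Agent.Results.MP_95a65f_co.Exact
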